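import Pool.Agent.Helper93.PL.St

/-!
# Moments of one Euler factor
-/

set_option autoImplicit false

namespace Pool.Agent.Helper22.PL

open Finset Polynomial
open Pool.Agent.Helper93.PL

theorem eval_bern (p n : ℕ) : (bernsteinPolynomial ℝ p n).eval (1 / (p : ℝ)) = bw p n := by
  unfold bernsteinPolynomial bw
  simp

theorem bw_nonneg {p : ℕ} (hp : 2 ≤ p) (n : ℕ) : 0 ≤ bw p n := by
  unfold bw
  have h1 : (0 : ℝ) ≤ 1 - 1 / (p : ℝ) := by
    have h2 : (2 : ℝ) ≤ p := by exact_mod_cast hp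
    have h3 : 1 / (p : ℝ) ≤ 1 := by
      rw [div_le_one (by linarith)]
      linarith
    linarith
  have h4 : (0 : ℝ) ≤ 1 / (p : ℝ) := by positivity
  positivity

theorem bw_sum (p : ℕ) : ∑ n ∈ range (p + 1), bw p n = 1 := by
  have h := congrArg (Polynomial.eval (1 / (p : ℝ))) (bernsteinPolynomial.sum ℝ p)
  rw [Polynomial.eval_finsetSum, Polynomial.eval_one] at h
  rw [← h]
  exact Finset.sum_congr rfl fun n _ => (eval_bern p n).symm

theorem bw_mean {p : ℕ} (hp : 2 ≤ p) : ∑ n ∈ range (p + 1), bw p n * (1 - (n : ℝ)) = 0 := by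
  have hp0 : (p : ℝ) ≠ 0 := by
    have : p ≠ 0 := by omega
    exact_mod_cast this
  have h := congrArg (Polynomial.eval (1 / (p : ℝ))) (bernsteinPolynomial.sum_smul ℝ p)
  rw [Polynomial.eval_finsetSum] at h
  have h1 : ∑ n ∈ range (p + 1), bw p n * (n : ℝ) = 1 := by
    have h2 : ∑ n ∈ range (p + 1), Polynomial.eval (1 / (p : ℝ)) (n • bernsteinPolynomial ℝ p n) =
        ∑ n ∈ range (p + 1), bw p n * (n : ℝ) := by
      refine Finset.sum_congr rfl fun n _ => ?_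
      rw [nsmul_eq_mul, Polynomial.eval_mul, Polynomial.eval_natCast, eval_bern, mul_comm]
    rw [← h2, h, nsmul_eq_mul, Polynomial.eval_mul, Polynomial.eval_natCast, Polynomial.eval_X]
    field_simp
  have h3 : ∑ n ∈ range (p + 1), bw p n * (1 - (n : ℝ)) =
      ∑ n ∈ range (p + 1), bw p n - ∑ n ∈ range (p + 1), bw p n * (n : ℝ) := by
    rw [← Finset.sum_sub_distrib]
    exact Finset.sum_congr rfl fun n _ => by ring
  rw [h3, bw_sum, h1, sub_self]

theorem bw_var {p : ℕ} (hp : 2 ≤ p) :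
    ∑ n ∈ range (p + 1), bw p n * (1 - (n : ℝ)) ^ 2 = 1 - 1 / (p : ℝ) := by
  have hp0 : (p : ℝ) ≠ 0 := by
    have : p ≠ 0 := by omega
    exact_mod_cast this
  have h := congrArg (Polynomial.eval (1 / (p : ℝ))) (bernsteinPolynomial.variance ℝ p)
  rw [Polynomial.eval_finsetSum] at h
  have h2 : ∑ n ∈ range (p + 1), Polynomial.eval (1 / (p : ℝ))
      ((p • Polynomial.X - (n : ℝ[X])) ^ 2 * bernsteinPolynomial ℝ p n) =
      ∑ n ∈ range (p + 1), bw p n * (1 - (n : ℝ)) ^ 2 := by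
    refine Finset.sum_congr rfl fun n _ => ?_
    rw [Polynomial.eval_mul, eval_bern, Polynomial.eval_pow, Polynomial.eval_sub, nsmul_eq_mul,
      Polynomial.eval_mul, Polynomial.eval_natCast, Polynomial.eval_natCast, Polynomial.eval_X,
      mul_one_div_cancel hp0, mul_comm]
  rw [← h2, h, nsmul_eq_mul, Polynomial.eval_mul, Polynomial.eval_mul, Polynomial.eval_natCast,
    Polynomial.eval_X, Polynomial.eval_sub, Polynomial.eval_one, Polynomial.eval_X,
    mul_one_div_cancel hp0, one_mul]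

theorem exp_le_quad {t : ℝ} (ht : t ≤ 1) : Real.exp t ≤ 1 + t + t ^ 2 := by
  by_cases h : -1 ≤ t
  · have h1 := Real.abs_exp_sub_one_sub_id_le (abs_le.mpr ⟨h, ht⟩)
    have h2 := (abs_le.mp h1).2
    linarith
  · push Not at h
    have h1 : Real.exp t ≤ 1 := Real.exp_le_one_iff.mpr (by linarith)
    nlinarith

theorem hBm1 : StBm1 := by
  intro p hp
  have hp2 : (2 : ℝ) ≤ p := by exact_mod_cast hp
  have hp0 : (p : ℝ) ≠ 0 := by linarith
  have hp1 : (p : ℝ) - 1 ≠ 0 := by linarith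
  have hpos : (0 : ℝ) < (p : ℝ) - 1 := by linarith
  have hb : ∀ n : ℕ, (1 - (n : ℝ) / p) / (1 - 1 / (p : ℝ)) = 1 + (1 - (n : ℝ)) / (p - 1) := by
    intro n
    have h1 : (1 : ℝ) - 1 / (p : ℝ) = (p - 1) / p := by field_simp
    have h2 : (1 : ℝ) - (n : ℝ) / p = (p - n) / p := by field_simp
    rw [h1, h2]
    field_simp
    ring
  have hb0 : ∀ n ∈ range (p + 1), (0 : ℝ) ≤ 1 + (1 - (n : ℝ)) / (p - 1) := by
    intro n hn
    have hn' : (n : ℝ) ≤ p := by exact_mod_cast Nat.lt_succ_iff.mp (mem_range.mp hn)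
    have h1 : 1 + (1 - (n : ℝ)) / ((p : ℝ) - 1) = (p - n) / (p - 1) := by
      field_simp
      ring
    rw [h1]
    exact div_nonneg (by linarith) hpos.le
  refine ⟨bw_sum p, ?_, ?_, ?_⟩
  · have h1 : ∑ n ∈ range (p + 1), bw p n * ((1 - (n : ℝ) / p) / (1 - 1 / (p : ℝ))) =
        ∑ n ∈ range (p + 1), bw p n + (1 / ((p : ℝ) - 1)) *
          ∑ n ∈ range (p + 1), bw p n * (1 - (n : ℝ)) := by
      rw [Finset.mul_sum, ← Finset.sum_add_distrib]
      refine Finset.sum_congr rfl fun n _ => ?_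
      rw [hb n]
      ring
    rw [h1, bw_sum, bw_mean hp, mul_zero, add_zero]
  · intro k hk
    have hk' : (k : ℝ) + 2 ≤ p := by exact_mod_cast hk
    have h1 : ∀ n ∈ range (p + 1), bw p n * ((1 - (n : ℝ) / p) / (1 - 1 / (p : ℝ))) ^ k ≤
        bw p n + (k / ((p : ℝ) - 1)) * (bw p n * (1 - (n : ℝ))) +
          (k / ((p : ℝ) - 1)) ^ 2 * (bw p n * (1 - (n : ℝ)) ^ 2) := by
      intro n hn
      rw [hb n]
      have h2 : (1 + (1 - (n : ℝ)) / ((p : ℝ) - 1)) ^ k ≤
          Real.exp (k * ((1 - (n : ℝ)) / ((p : ℝ) - 1))) := by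
        rw [Real.exp_nat_mul]
        refine pow_le_pow_left₀ (hb0 n hn) ?_ k
        have := Real.add_one_le_exp ((1 - (n : ℝ)) / ((p : ℝ) - 1))
        linarith
      have h3 : (k : ℝ) * ((1 - (n : ℝ)) / ((p : ℝ) - 1)) ≤ 1 := by
        rw [← mul_div_assoc, div_le_one hpos]
        have h4 : (0 : ℝ) ≤ n := Nat.cast_nonneg n
        have h5 : (0 : ℝ) ≤ k := Nat.cast_nonneg k
        nlinarith
      have h6 := h2.trans (exp_le_quad h3)
      have h7 := mul_le_mul_of_nonneg_left h6 (bw_nonneg hp n)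
      refine h7.trans (le_of_eq ?_)
      ring
    refine (Finset.sum_le_sum h1).trans ?_
    rw [Finset.sum_add_distrib, Finset.sum_add_distrib, ← Finset.mul_sum, ← Finset.mul_sum, bw_sum,
      bw_mean hp, bw_var hp, mul_zero, add_zero]
    have h8 : (k / ((p : ℝ) - 1)) ^ 2 * (1 - 1 / (p : ℝ)) ≤ 4 * k ^ 2 / (p : ℝ) ^ 2 := by
      have h9 : (k / ((p : ℝ) - 1)) ^ 2 * (1 - 1 / (p : ℝ)) = k ^ 2 / (((p : ℝ) - 1) * p) := by
        field_simp
      rw [h9, div_le_div_iff₀ (by positivity) (by positivity)]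
      have h10 : (0 : ℝ) ≤ (k : ℝ) ^ 2 := by positivity
      have h11 : (p : ℝ) ^ 2 ≤ 4 * (((p : ℝ) - 1) * p) := by nlinarith
      calc (k : ℝ) ^ 2 * (p : ℝ) ^ 2 ≤ k ^ 2 * (4 * (((p : ℝ) - 1) * p)) :=
            mul_le_mul_of_nonneg_left h11 h10
        _ = 4 * (k : ℝ) ^ 2 * (((p : ℝ) - 1) * p) := by ring
    have h12 := Real.add_one_le_exp (4 * (k : ℝ) ^ 2 / (p : ℝ) ^ 2)
    linarith
  · intro k
    have h1 : ∀ n ∈ range (p + 1), bw p n * ((1 - (n : ℝ) / p) / (1 - 1 / (p : ℝ))) ^ k ≤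
        bw p n * ((p : ℝ) / (p - 1)) ^ k := by
      intro n hn
      refine mul_le_mul_of_nonneg_left ?_ (bw_nonneg hp n)
      rw [hb n]
      refine pow_le_pow_left₀ (hb0 n hn) ?_ k
      have h2 : (0 : ℝ) ≤ n := Nat.cast_nonneg n
      have h3 : 1 + (1 - (n : ℝ)) / ((p : ℝ) - 1) = (p - n) / (p - 1) := by
        field_simp
        ring
      rw [h3]
      exact div_le_div_of_nonneg_right (by linarith) hpos.le
    refine (Finset.sum_le_sum h1).trans ?_
    rw [← Finset.sum_mul, bw_sum, one_mul]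

end Pool.Agent.Helper22.PL
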